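import Pool.Agent.H725R3.SConv.Lower

set_option autoImplicit false
set_option linter.unusedSectionVars false
set_option linter.unusedSimpArgs false
set_option linter.style.haveILetI false
open MeasureTheory ProbabilityTheory Filter Set
open Pool.Agent.H725R3.SConv
open scoped ENNReal NNReal Topology

/-!
Almost sure unboundedness of the stochastic convolution of `Pool.Agent.H725R3.SConv`: the good
events of the blocks are conditionally independent, the errors are summable.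
-/

namespace Pool.Agent.Y850.SC

variable {Ω : Type*} {mΩ : MeasurableSpace Ω} {P : Measure Ω} [IsProbabilityMeasure P]
  {F : Filtration ℝ mΩ} {T : ℝ} {W : ℝ → Ω → ℝ}
  {G : ℕ → MeasurableSpace Ω} {R : ℕ → Ω → ℝ} {L : ℕ}

theorem zero_le_G (hc : Coins P G R L) {l : ℕ} (hl : l ≤ L) : G 0 ≤ G l := by
  induction l with
  | zero => exact le_rfl
  | succ l ih => exact (ih (by omega)).trans (hc.mono l (by omega))

theorem key_cond (hc : Coins P G R L) {A : Set Ω} (hA : MeasurableSet[G 0] A) {l : ℕ}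
    (hl : l < L) {s t : Set Ω} (hs : MeasurableSet[MeasurableSpace.comap (R l) inferInstance] s)
    (ht : MeasurableSet[G l] t) : P (A ∩ (s ∩ t)) = P s * P (A ∩ t) := by
  have h1 := (Indep_iff _ _ P).1 (hc.indep l hl) s (A ∩ t) hs
    (((zero_le_G hc hl.le) _ hA).inter ht)
  rw [← h1]
  congr 1
  ext ω
  simp only [mem_inter_iff]
  tauto

/-- conditioning on the past does not change the law of the future outcomes -/
theorem coins_cond (hc : Coins P G R L) {A : Set Ω} (hA : MeasurableSet[G 0] A)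
    (hA0 : P A ≠ 0) : Coins (ProbabilityTheory.cond P A) G R L where
  le := hc.le
  mono := hc.mono
  meas := hc.meas
  law := fun l hl => by
    have hAm : MeasurableSet A := hc.le 0 (Nat.zero_le _) _ hA
    ext S hS
    rw [Measure.map_apply (hc.measR hl) hS, cond_apply hAm, ← hc.law l hl,
      Measure.map_apply (hc.measR hl) hS]
    have h := key_cond hc hA hl (s := R l ⁻¹' S) (t := univ) ⟨S, hS, rfl⟩ MeasurableSet.univ
    rw [inter_univ, inter_univ] at h
    rw [h, mul_comm, mul_assoc, ENNReal.mul_inv_cancel hA0 (measure_ne_top _ _), mul_one]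
  indep := fun l hl => by
    have hAm : MeasurableSet A := hc.le 0 (Nat.zero_le _) _ hA
    rw [Indep_iff]
    intro s t hs ht
    have h1 := key_cond hc hA hl hs ht
    have h2 := key_cond hc hA hl hs (t := univ) MeasurableSet.univ
    rw [inter_univ, inter_univ] at h2
    rw [cond_apply hAm, cond_apply hAm, cond_apply hAm, h1, h2]
    have e : (P A)⁻¹ * (P s * P A) = P s := by
      rw [mul_comm, mul_assoc, ENNReal.mul_inv_cancel hA0 (measure_ne_top _ _), mul_one]
    rw [e]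
    ring

theorem meas_Yq (hc : Coins P G R L) (w : ℕ → ℕ) (d : ℕ → ℝ) (k : ℕ) {l : ℕ} (hl : l ≤ L) :
    Measurable[G l] (fun ω => Yq w (fun j => R j ω) d k l) := by
  induction l with
  | zero => exact measurable_const
  | succ l ih =>
    have h1 := (ih (by omega)).mono (hc.mono l (by omega)) le_rfl
    have h2 := (hc.meas_att w k (l := l) (by omega)).mono (hc.mono l (by omega)) le_rfl
    have h3 := hc.meas l (by omega)
    show Measurable[G (l + 1)] (fun ω => d k * (Yq w (fun j => R j ω) d k l +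
      att w (fun j => R j ω) k l * R l ω))
    exact (h1.add (h2.mul h3)).const_mul _

/-- the bad event of a block -/
def Bad (w : ℕ → ℕ) (d : ℕ → ℝ) (N L : ℕ) (R : ℕ → Ω → ℝ) : Set Ω :=
  {ω | ∀ l, 0 < l → l ≤ L →
    ∑ k ∈ Finset.range N, Yq w (fun j => R j ω) d k l < 3 / 4 * (N : ℝ)}

theorem G_mono (hc : Coins P G R L) {l : ℕ} (hl : l ≤ L) : G l ≤ G L := by
  obtain ⟨n, rfl⟩ : ∃ n, L = l + n := ⟨L - l, by omega⟩
  have : ∀ n' ≤ n, G l ≤ G (l + n') := by
    intro n' hn'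
    induction n' with
    | zero => exact le_rfl
    | succ n' ih => exact (ih (by omega)).trans (hc.mono (l + n') (by omega))
  exact this n le_rfl

theorem meas_Bad (hc : Coins P G R L) (w : ℕ → ℕ) (d : ℕ → ℝ) (N : ℕ) :
    MeasurableSet[G L] (Bad w d N L R) := by
  have e : Bad w d N L R = ⋂ l ∈ {l : ℕ | 0 < l ∧ l ≤ L},
      {ω | ∑ k ∈ Finset.range N, Yq w (fun j => R j ω) d k l < 3 / 4 * (N : ℝ)} := by
    ext ω
    simp only [Bad, mem_setOf_eq, mem_iInter]
    exact ⟨fun h l hl => h l hl.1 hl.2, fun h l h1 h2 => h l ⟨h1, h2⟩⟩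
  rw [e]
  refine MeasurableSet.biInter (to_countable _) fun l hl => ?_
  have h1 : Measurable[G L] (fun ω => ∑ k ∈ Finset.range N, Yq w (fun j => R j ω) d k l) :=
    Finset.measurable_fun_sum _ fun k _ => (meas_Yq hc w d k hl.2).mono (G_mono hc hl.2) le_rfl
  exact measurableSet_lt h1 measurable_const

variable (c : Par T)

/-- the bad event of block `m` -/
def B0 (W : ℝ → Ω → ℝ) (m : ℕ) : Set Ω :=
  Bad (c.w m) (fun k => Real.exp (-(c.r m k * c.Δ m))) (2 ^ m) (c.L m) (c.RR W m)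

theorem meas_B0 (hW : IsBM P F T W) (m : ℕ) : MeasurableSet[F (c.τ (m + 1))] (B0 c W m) := by
  rw [← c.tt_end m]
  exact meas_Bad (c.RR_coins hW m) (c.w m) (fun k => Real.exp (-(c.r m k * c.Δ m))) (2 ^ m)

theorem cond_B0 (hW : IsBM P F T W) (m : ℕ) {A : Set Ω} (hA : MeasurableSet[F (c.τ m)] A) :
    P (A ∩ B0 c W m) ≤ ENNReal.ofReal (3 / 8) * P A := by
  by_cases hA0 : P A = 0
  · rw [hA0, mul_zero]
    exact le_of_eq (measure_mono_null inter_subset_left hA0)
  have hAm : MeasurableSet A := F.le _ _ hA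
  have hA' : MeasurableSet[F (c.tt m 0)] A := by rw [c.tt_zero]; exact hA
  have hcc := coins_cond (c.RR_coins hW m) (A := A) hA' hA0
  haveI : IsProbabilityMeasure (ProbabilityTheory.cond P A) := cond_isProbabilityMeasure hA0
  have h := hcc.block (c.w m) (fun k => c.r m k * c.Δ m)
      (fun k => mul_nonneg (c.r0 m k) (c.Δpos m).le) (N := 2 ^ m) (by positivity) (c.h1 m)
      (c.h2 m) (c.Lpos m)
  have h2 : (ProbabilityTheory.cond P A) (B0 c W m) ≤ ENNReal.ofReal (3 / 8) := by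
    rw [← ofReal_measureReal]
    exact ENNReal.ofReal_le_ofReal h
  rw [cond_apply hAm] at h2
  calc P (A ∩ B0 c W m) = P A * ((P A)⁻¹ * P (A ∩ B0 c W m)) := by
        rw [← mul_assoc, ENNReal.mul_inv_cancel hA0 (measure_ne_top _ _), one_mul]
    _ ≤ P A * ENNReal.ofReal (3 / 8) := by gcongr
    _ = _ := mul_comm _ _

/-- almost surely infinitely many blocks are good -/
theorem infinitely_good (hW : IsBM P F T W) :
    ∀ᵐ ω ∂P, ∀ K : ℕ, ∃ m, K ≤ m ∧ ω ∉ B0 c W m := by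
  rw [ae_all_iff]
  intro K
  have hAn : ∀ n : ℕ, MeasurableSet[F (c.τ (K + n))] (⋂ m ∈ Finset.range n, B0 c W (K + m)) ∧
      P (⋂ m ∈ Finset.range n, B0 c W (K + m)) ≤ ENNReal.ofReal (3 / 8) ^ n := by
    intro n
    induction n with
    | zero => simp
    | succ n ih =>
      have e : (⋂ m ∈ Finset.range (n + 1), B0 c W (K + m)) =
          (⋂ m ∈ Finset.range n, B0 c W (K + m)) ∩ B0 c W (K + n) := by
        rw [Finset.range_add_one, Finset.set_biInter_insert, inter_comm]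
      rw [e]
      refine ⟨?_, ?_⟩
      · refine MeasurableSet.inter ?_ (meas_B0 c hW (K + n))
        exact F.mono (c.τmono (by omega)) _ ih.1
      · refine (cond_B0 c hW (K + n) ih.1).trans ?_
        rw [pow_succ, mul_comm]
        gcongr
        exact ih.2
  have hle : ∀ n : ℕ, P {ω | ¬ ∃ m, K ≤ m ∧ ω ∉ B0 c W m} ≤ ENNReal.ofReal (3 / 8) ^ n := by
    intro n
    refine (measure_mono fun ω hω => ?_).trans (hAn n).2
    simp only [mem_iInter]
    intro m _
    by_contra h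
    exact hω ⟨K + m, by omega, h⟩
  have hlim : Tendsto (fun n : ℕ => ENNReal.ofReal (3 / 8) ^ n) atTop (𝓝 0) := by
    refine ENNReal.tendsto_pow_atTop_nhds_zero_of_lt_one ?_
    rw [← ENNReal.ofReal_one]
    exact (ENNReal.ofReal_lt_ofReal_iff (by norm_num)).2 (by norm_num)
  exact le_antisymm (ge_of_tendsto' hlim hle) bot_le

/-- the error event of a grid time -/
def Err (W : ℝ → Ω → ℝ) (u : ℝ → Ω → XX) (m i : ℕ) : Set Ω :=
  {ω | ENNReal.ofReal (((3 / 5 : ℝ) ^ m * (2 ^ m / 4)) ^ 2) ≤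
    ‖psiF m (u (c.tt m i) ω) - (3 / 5) ^ m * ∑ k ∈ Finset.range (2 ^ m),
      Yq (c.w m) (fun j => c.RR W m j ω) (fun k => Real.exp (-(c.r m k * c.Δ m))) k i‖ₑ ^ 2}

theorem large_of_good (m : ℕ) {u : ℝ → Ω → XX} {ω : Ω} (h1 : ω ∉ B0 c W m)
    (h2 : ∀ i, i ≤ c.L m → ω ∉ Err c W u m i) :
    ∃ i, i ≤ c.L m ∧ (27 / 25 : ℝ) ^ m / 2 ≤ ‖u (c.tt m i) ω‖ := by
  have ha : (0 : ℝ) < (3 / 5) ^ m := by positivity
  have h1' : ∃ l, 0 < l ∧ l ≤ c.L m ∧ 3 / 4 * ((2 ^ m : ℕ) : ℝ) ≤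
      ∑ k ∈ Finset.range (2 ^ m),
      Yq (c.w m) (fun j => c.RR W m j ω) (fun k => Real.exp (-(c.r m k * c.Δ m))) k l := by
    by_contra h
    push Not at h
    exact h1 h
  obtain ⟨l, _, hl, hZl⟩ := h1'
  set Z := ∑ k ∈ Finset.range (2 ^ m),
      Yq (c.w m) (fun j => c.RR W m j ω) (fun k => Real.exp (-(c.r m k * c.Δ m))) k l with hZ
  push_cast at hZl
  have h3 := h2 l hl
  have h4 : ‖psiF m (u (c.tt m l) ω) - (3 / 5) ^ m * Z‖ₑ ^ 2 <
      ENNReal.ofReal (((3 / 5 : ℝ) ^ m * (2 ^ m / 4)) ^ 2) := not_le.1 h3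
  rw [← ofReal_norm, ← ENNReal.ofReal_pow (norm_nonneg _),
    ENNReal.ofReal_lt_ofReal_iff (by positivity)] at h4
  have h5 : |psiF m (u (c.tt m l) ω) - (3 / 5) ^ m * Z| < (3 / 5 : ℝ) ^ m * (2 ^ m / 4) := by
    have := (pow_lt_pow_iff_left₀ (norm_nonneg _) (by positivity) (by norm_num)).1 h4
    rwa [Real.norm_eq_abs] at this
  refine ⟨l, hl, ?_⟩
  have h6 := (abs_lt.1 h5).1
  have h7 := mul_le_mul_of_nonneg_left hZl ha.le
  have h8 : (3 / 5 : ℝ) ^ m * (2 ^ m / 2) < psiF m (u (c.tt m l) ω) := by linarith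
  have h9 := (le_abs_self _).trans (psiF_bound m (u (c.tt m l) ω))
  by_contra h10
  rw [not_le] at h10
  have h11 : (10 / 9 : ℝ) ^ m * ‖u (c.tt m l) ω‖ < (10 / 9 : ℝ) ^ m * ((27 / 25) ^ m / 2) :=
    mul_lt_mul_of_pos_left h10 (by positivity)
  have h12 : (10 / 9 : ℝ) ^ m * ((27 / 25) ^ m / 2) = (3 / 5 : ℝ) ^ m * (2 ^ m / 2) := by
    rw [← mul_div_assoc, ← mul_div_assoc, ← mul_pow, ← mul_pow]
    norm_num
  linarith

theorem prob_Err (hW : IsBM P F T W) (m : ℕ) {u : ℝ → Ω → XX}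
    (hu : ∀ t, 0 ≤ t → t ≤ T →
      IsItoIntegral P F W t (fun s ω => c.S (t - s) (c.g W s ω)) (u t)) {i : ℕ}
    (hi' : i ≤ c.L m) :
    P (Err c W u m i) ≤ ENNReal.ofReal (1 / (64 * ((c.L m : ℝ) + 1)) * (1 / 4) ^ m) := by
  have ha : (0 : ℝ) < (3 / 5) ^ m := by positivity
  have hYi := hu (c.tt m i) (c.tt_nonneg m i) (c.tt_leT hi')
  have h1 := c.dist_grid hW m i hi' hYi
  set Z : Ω → ℝ := fun ω => ∑ k ∈ Finset.range (2 ^ m),
      Yq (c.w m) (fun j => c.RR W m j ω) (fun k => Real.exp (-(c.r m k * c.Δ m))) k i with hZ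
  have hmeas : AEMeasurable (fun ω => ‖psiF m (u (c.tt m i) ω) - (3 / 5) ^ m * Z ω‖ₑ ^ 2) P := by
    have e1 : AEStronglyMeasurable (fun ω => psiF m (u (c.tt m i) ω)) P :=
      (psiF m).continuous.comp_aestronglyMeasurable hYi.1
    have e2 : AEStronglyMeasurable (fun ω => (3 / 5 : ℝ) ^ m * Z ω) P := by
      have e3 := (c.cmp hW m i hi').aesm_integral (c.tt_leT hi') hW
      have e4 : (c.cmp hW m i hi').integral W = fun ω => (3 / 5 : ℝ) ^ m * Z ω := by
        funext ω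
        exact c.cmp_integral hW m i hi' ω
      rw [e4] at e3
      exact e3
    exact (e1.sub e2).enorm.pow_const 2
  have hne : ENNReal.ofReal (((3 / 5 : ℝ) ^ m * (2 ^ m / 4)) ^ 2) ≠ 0 := by
    rw [Ne, ENNReal.ofReal_eq_zero, not_le]
    positivity
  have h2 := meas_ge_le_lintegral_div hmeas hne ENNReal.ofReal_ne_top
  refine h2.trans ((ENNReal.div_le_div_right h1 _).trans ?_)
  rw [← ENNReal.ofReal_div_of_pos (by positivity)]
  refine ENNReal.ofReal_le_ofReal (le_of_eq ?_)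
  have hL0 : (0 : ℝ) < (c.L m : ℝ) + 1 := by positivity
  have e5 : ((1 : ℝ) / 4) ^ m = 1 / (2 ^ m) ^ 2 := by
    rw [div_pow, one_pow, ← pow_mul, mul_comm, pow_mul]
    norm_num
  rw [e5]
  field_simp
  ring

/-- almost surely there are errors in finitely many blocks only -/
theorem eventually_no_error (hW : IsBM P F T W) {u : ℝ → Ω → XX}
    (hu : ∀ t, 0 ≤ t → t ≤ T →
      IsItoIntegral P F W t (fun s ω => c.S (t - s) (c.g W s ω)) (u t)) :
    ∀ᵐ ω ∂P, ∀ᶠ m in atTop, ω ∉ ⋃ i ∈ Finset.range (c.L m + 1), Err c W u m i := by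
  refine ae_eventually_notMem ?_
  have hle : ∀ m, P (⋃ i ∈ Finset.range (c.L m + 1), Err c W u m i) ≤
      ENNReal.ofReal ((1 / 4) ^ m) := by
    intro m
    refine (measure_biUnion_finset_le _ _).trans ?_
    refine (Finset.sum_le_sum fun i hi => prob_Err c hW m hu (i := i) (by
      have := Finset.mem_range.1 hi; omega)).trans ?_
    rw [Finset.sum_const, Finset.card_range, nsmul_eq_mul, ← ENNReal.ofReal_natCast,
      ← ENNReal.ofReal_mul (by positivity)]
    refine ENNReal.ofReal_le_ofReal ?_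
    push_cast
    have hL0 : (0 : ℝ) < (c.L m : ℝ) + 1 := by positivity
    have h4 : (0 : ℝ) < (1 / 4) ^ m := by positivity
    calc ((c.L m : ℝ) + 1) * (1 / (64 * ((c.L m : ℝ) + 1)) * (1 / 4) ^ m)
        = (1 / 64) * (1 / 4) ^ m := by field_simp
      _ ≤ 1 * (1 / 4) ^ m := by gcongr; norm_num
      _ = _ := one_mul _
  refine ne_top_of_le_ne_top ?_ (ENNReal.tsum_le_tsum hle)
  rw [← ENNReal.ofReal_tsum_of_nonneg (fun _ => by positivity)
    (summable_geometric_of_lt_one (by norm_num) (by norm_num))]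
  exact ENNReal.ofReal_ne_top

/-- the countable set of grid times -/
def Dset : Set ℝ := {t | ∃ m i, i ≤ c.L m ∧ t = c.tt m i}

theorem Dset_countable : (Dset c).Countable := by
  refine (countable_range (fun p : ℕ × ℕ => c.tt p.1 p.2)).mono ?_
  rintro t ⟨m, i, _, rfl⟩
  exact ⟨(m, i), rfl⟩

theorem Dset_subset : Dset c ⊆ Icc 0 T := by
  rintro t ⟨m, i, hi, rfl⟩
  exact ⟨c.tt_nonneg m i, c.tt_leT hi⟩

/-- **Almost sure unboundedness on a countable set of times.** -/
theorem ae_unbounded (hW : IsBM P F T W) {u : ℝ → Ω → XX}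
    (hu : ∀ t, 0 ≤ t → t ≤ T →
      IsItoIntegral P F W t (fun s ω => c.S (t - s) (c.g W s ω)) (u t)) :
    ∀ᵐ ω ∂P, ∀ C : ℝ, ∃ t ∈ Dset c, C < ‖u t ω‖ := by
  filter_upwards [infinitely_good c hW, eventually_no_error c hW hu] with ω h1 h2 C
  obtain ⟨M, hM⟩ := eventually_atTop.1 h2
  obtain ⟨K, hK⟩ := pow_unbounded_of_one_lt (2 * C) (by norm_num : (1 : ℝ) < 27 / 25)
  obtain ⟨m, hm, hgood⟩ := h1 (max M K)
  have h3 := hM m ((le_max_left _ _).trans hm)
  obtain ⟨i, hi, hbig⟩ := large_of_good c m hgood (u := u) (fun i hi hE => h3 (by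
    simp only [mem_iUnion]
    exact ⟨i, Finset.mem_range.2 (by omega), hE⟩))
  refine ⟨c.tt m i, ⟨m, i, hi, rfl⟩, ?_⟩
  have h4 : (27 / 25 : ℝ) ^ K ≤ (27 / 25) ^ m :=
    pow_le_pow_right₀ (by norm_num) ((le_max_right _ _).trans hm)
  linarith

end Pool.Agent.Y850.SC
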